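import Mathlib

/-!
# A weakly transitive group of rank two whose square is not weakly transitive
-/

set_option autoImplicit false

namespace Pool.Agent.Results.MP_1abb56_al.SquareNotWeaklyTransitive

/-- `G` is weakly transitive: whenever endomorphisms `φ`, `ψ` satisfy `φ x = y` and `ψ y = x`, there
is an automorphism `η` with `η x = y`. -/
def WeaklyTransitive (G : Type) [AddCommGroup G] : Prop :=
  ∀ x y : G, (∃ φ : G →+ G, φ x = y) → (∃ ψ : G →+ G, ψ y = x) → ∃ η : G ≃+ G, η x = y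

theorem five_dvd_pow (j : ℕ) : (5 : ℤ) ∣ 11 ^ j - 31 ^ j := by
  refine dvd_trans ?_ (sub_dvd_pow_sub_pow (11 : ℤ) 31 j)
  norm_num

/-- The pairs `(a, b)` with `a` in `ℤ[1/11]`, `b` in `ℤ[1/31]` and `a ≡ b` modulo `5`. -/
def R : Subring (ℚ × ℚ) where
  carrier := {x | ∃ (k : ℕ) (m n : ℤ), x.1 * 11 ^ k = m ∧ x.2 * 31 ^ k = n ∧ (5 : ℤ) ∣ m - n}
  one_mem' := ⟨0, 1, 1, by norm_num, by norm_num, by norm_num⟩
  zero_mem' := ⟨0, 0, 0, by norm_num, by norm_num, by norm_num⟩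
  mul_mem' := by
    rintro ⟨a, b⟩ ⟨a', b'⟩ ⟨k, m, n, h1, h2, h3⟩ ⟨k', m', n', h1', h2', h3'⟩
    simp only at h1 h2 h1' h2'
    refine ⟨k + k', m * m', n * n', ?_, ?_, ?_⟩
    · push_cast
      rw [← h1, ← h1', pow_add]
      simp only [Prod.mk_mul_mk]
      ring
    · push_cast
      rw [← h2, ← h2', pow_add]
      simp only [Prod.mk_mul_mk]
      ring
    · have : m * m' - n * n' = m * (m' - n') + n' * (m - n) := by ring
      rw [this]
      exact dvd_add (Dvd.dvd.mul_left h3' _) (Dvd.dvd.mul_left h3 _)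
  add_mem' := by
    rintro ⟨a, b⟩ ⟨a', b'⟩ ⟨k, m, n, h1, h2, h3⟩ ⟨k', m', n', h1', h2', h3'⟩
    simp only at h1 h2 h1' h2'
    refine ⟨k + k', m * 11 ^ k' + m' * 11 ^ k, n * 31 ^ k' + n' * 31 ^ k, ?_, ?_, ?_⟩
    · push_cast
      rw [← h1, ← h1', pow_add]
      simp only [Prod.mk_add_mk]
      ring
    · push_cast
      rw [← h2, ← h2', pow_add]
      simp only [Prod.mk_add_mk]
      ring
    · have : m * 11 ^ k' + m' * 11 ^ k - (n * 31 ^ k' + n' * 31 ^ k) =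
          (m - n) * 11 ^ k' + n * (11 ^ k' - 31 ^ k') + ((m' - n') * 11 ^ k +
            n' * (11 ^ k - 31 ^ k)) := by ring
      rw [this]
      exact dvd_add (dvd_add (Dvd.dvd.mul_right h3 _) (Dvd.dvd.mul_left (five_dvd_pow _) _))
        (dvd_add (Dvd.dvd.mul_right h3' _) (Dvd.dvd.mul_left (five_dvd_pow _) _))
  neg_mem' := by
    rintro ⟨a, b⟩ ⟨k, m, n, h1, h2, h3⟩
    simp only at h1 h2
    refine ⟨k, -m, -n, ?_, ?_, ?_⟩
    · push_cast
      rw [← h1]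
      simp only [Prod.neg_mk]
      ring
    · push_cast
      rw [← h2]
      simp only [Prod.neg_mk]
      ring
    · have : -m - -n = -(m - n) := by ring
      rw [this]
      exact (dvd_neg).2 h3

theorem mem_R (x : ℚ × ℚ) : x ∈ R ↔ ∃ (k : ℕ) (m n : ℤ), x.1 * 11 ^ k = m ∧
    x.2 * 31 ^ k = n ∧ (5 : ℤ) ∣ m - n := Iff.rfl

/-- integer pairs -/
theorem int_mem (m n : ℤ) (h : (5 : ℤ) ∣ m - n) : ((m : ℚ), (n : ℚ)) ∈ R :=
  ⟨0, m, n, by simp, by simp, h⟩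

/-- Units of `ℤ[1/q]` are congruent to `±1` modulo `5` if `q ≡ 1`. -/
theorem unit_mod {q : ℕ} (hq : q.Prime) (hq5 : (5 : ℤ) ∣ q - 1) {a b : ℚ} {k l : ℕ} {m n : ℤ}
    (ha : a * (q : ℚ) ^ k = m) (hb : b * (q : ℚ) ^ l = n) (hab : a * b = 1) :
    (5 : ℤ) ∣ m - 1 ∨ (5 : ℤ) ∣ m + 1 := by
  have h1 : m * n = (q : ℤ) ^ (k + l) := by
    have : (m : ℚ) * n = (q : ℚ) ^ (k + l) := by
      rw [← ha, ← hb, pow_add]
      calc a * (q : ℚ) ^ k * (b * (q : ℚ) ^ l) = (a * b) * ((q : ℚ) ^ k * (q : ℚ) ^ l) := by ring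
        _ = _ := by rw [hab, one_mul]
    exact_mod_cast this
  have h2 : m.natAbs ∣ q ^ (k + l) := by
    have := Int.natAbs_dvd_natAbs.2 (Dvd.intro _ h1)
    rwa [Int.natAbs_pow, Int.natAbs_natCast] at this
  obtain ⟨j, -, hj⟩ := (Nat.dvd_prime_pow hq).1 h2
  have h3 : (5 : ℤ) ∣ (q : ℤ) ^ j - 1 := by
    have := sub_dvd_pow_sub_pow (q : ℤ) 1 j
    rw [one_pow] at this
    exact hq5.trans this
  rcases Int.natAbs_eq m with h | h
  · left
    rw [h, hj]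
    push_cast
    exact h3
  · right
    rw [h, hj]
    push_cast
    have : -(q : ℤ) ^ j + 1 = -((q : ℤ) ^ j - 1) := by ring
    rw [this]
    exact (dvd_neg).2 h3

/-- An element of `ℤ[1/q]` divisible by all powers of `p` is zero. -/
theorem eq_zero_of_div {p q : ℕ} (hp : 1 < p) (hpq : Nat.Coprime p q) (hq : 0 < q) {b : ℚ}
    (h : ∀ k : ℕ, ∃ (c : ℚ) (l : ℕ) (n : ℤ), b = (p : ℚ) ^ k * c ∧ c * (q : ℚ) ^ l = n) :
    b = 0 := by
  obtain ⟨c, l, n, h1, h2⟩ := h 0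
  rw [pow_zero, one_mul] at h1
  subst h1
  have hq' : (q : ℚ) ≠ 0 := by exact_mod_cast hq.ne'
  have h3 : ∀ k : ℕ, (p : ℤ) ^ k ∣ n := by
    intro k
    obtain ⟨c', l', n', h4, h5⟩ := h k
    have h6 : n * (q : ℤ) ^ l' = (p : ℤ) ^ k * (n' * (q : ℤ) ^ l) := by
      have : (n : ℚ) * (q : ℚ) ^ l' = (p : ℚ) ^ k * (n' * (q : ℚ) ^ l) := by
        rw [← h2, ← h5, h4]; ring
      exact_mod_cast this
    have h7 : (p : ℤ) ^ k ∣ n * (q : ℤ) ^ l' := ⟨_, h6⟩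
    have h8 : IsCoprime ((p : ℤ) ^ k) ((q : ℤ) ^ l') :=
      IsCoprime.pow (Nat.isCoprime_iff_coprime.2 hpq)
    exact h8.dvd_of_dvd_mul_right h7
  have h4 : n = 0 := by
    by_contra hn
    have h5 := Int.le_of_dvd (Int.natCast_pos.2 (Int.natAbs_pos.2 hn))
      ((Int.dvd_natAbs).2 (h3 n.natAbs))
    have h6 : n.natAbs < p ^ n.natAbs := Nat.lt_pow_self hp
    have h7 : (p ^ n.natAbs : ℕ) ≤ n.natAbs := by exact_mod_cast h5
    omega
  rw [h4, Int.cast_zero] at h2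
  exact (mul_eq_zero.1 h2).resolve_right (pow_ne_zero _ hq')

/-- The first coordinate. -/
def c1 : R →+ ℚ := (AddMonoidHom.fst ℚ ℚ).comp (R.subtype : R →+* ℚ × ℚ).toAddMonoidHom

/-- The second coordinate. -/
def c2 : R →+ ℚ := (AddMonoidHom.snd ℚ ℚ).comp (R.subtype : R →+* ℚ × ℚ).toAddMonoidHom

theorem R_ext {a b : R} (h1 : c1 a = c1 b) (h2 : c2 a = c2 b) : a = b :=
  Subtype.ext (Prod.ext h1 h2)

theorem c1_mul (a b : R) : c1 (a * b) = c1 a * c1 b := rfl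
theorem c2_mul (a b : R) : c2 (a * b) = c2 a * c2 b := rfl
theorem c1_one : c1 1 = 1 := rfl
theorem c2_one : c2 1 = 1 := rfl
theorem c1_mk (a b : ℚ) (h : (a, b) ∈ R) : c1 ⟨(a, b), h⟩ = a := rfl
theorem c2_mk (a b : ℚ) (h : (a, b) ∈ R) : c2 ⟨(a, b), h⟩ = b := rfl

theorem spec (g : R) : ∃ (k : ℕ) (m n : ℤ), c1 g * 11 ^ k = m ∧ c2 g * 31 ^ k = n ∧
    (5 : ℤ) ∣ m - n := g.2

/-- Endomorphisms preserve the subgroup of the elements `(a, 0)`. -/
theorem snd_zero (φ : R →+ R) (g : R) (hg : c2 g = 0) : c2 (φ g) = 0 := by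
  refine eq_zero_of_div (p := 11) (q := 31) (by norm_num) (by norm_num) (by norm_num) fun k => ?_
  obtain ⟨j, m, n, h1, h2, h3⟩ := spec g
  have h4 : (c1 g / 11 ^ k, (0 : ℚ)) ∈ R := by
    refine ⟨j + k, m, 0, ?_, by simp, ?_⟩
    · rw [← h1, pow_add]
      field_simp
    · rw [hg, zero_mul] at h2
      have : n = 0 := by exact_mod_cast h2.symm
      rwa [this] at h3
  obtain ⟨z, hz1, hz2⟩ : ∃ z : R, c1 z = c1 g / 11 ^ k ∧ c2 z = 0 := ⟨⟨_, h4⟩, rfl, rfl⟩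
  have h5 : g = (11 ^ k : ℕ) • z := by
    refine R_ext ?_ ?_
    · rw [map_nsmul, hz1, nsmul_eq_mul]
      push_cast
      field_simp
    · rw [map_nsmul, hz2, hg, smul_zero]
  obtain ⟨l, m', n', -, h6, -⟩ := spec (φ z)
  refine ⟨c2 (φ z), l, n', ?_, by exact_mod_cast h6⟩
  rw [h5, map_nsmul, map_nsmul, nsmul_eq_mul]
  push_cast
  rfl

/-- Endomorphisms preserve the subgroup of the elements `(0, b)`. -/
theorem fst_zero (φ : R →+ R) (g : R) (hg : c1 g = 0) : c1 (φ g) = 0 := by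
  refine eq_zero_of_div (p := 31) (q := 11) (by norm_num) (by norm_num) (by norm_num) fun k => ?_
  obtain ⟨j, m, n, h1, h2, h3⟩ := spec g
  have h4 : ((0 : ℚ), c2 g / 31 ^ k) ∈ R := by
    refine ⟨j + k, 0, n, by simp, ?_, ?_⟩
    · rw [← h2, pow_add]
      field_simp
    · rw [hg, zero_mul] at h1
      have : m = 0 := by exact_mod_cast h1.symm
      rwa [this] at h3
  obtain ⟨z, hz1, hz2⟩ : ∃ z : R, c1 z = 0 ∧ c2 z = c2 g / 31 ^ k := ⟨⟨_, h4⟩, rfl, rfl⟩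
  have h5 : g = (31 ^ k : ℕ) • z := by
    refine R_ext ?_ ?_
    · rw [map_nsmul, hz1, hg, smul_zero]
    · rw [map_nsmul, hz2, nsmul_eq_mul]
      push_cast
      field_simp
  obtain ⟨l, m', n', h6, -, -⟩ := spec (φ z)
  refine ⟨c1 (φ z), l, m', ?_, by exact_mod_cast h6⟩
  rw [h5, map_nsmul, map_nsmul, nsmul_eq_mul]
  push_cast
  rfl

/-- `5 g = (5 a, 0) + (0, 5 b)`. -/
theorem split (g : R) : ∃ z w : R, (5 : ℕ) • g = z + w ∧ c1 z = 5 * c1 g ∧ c2 z = 0 ∧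
    c1 w = 0 ∧ c2 w = 5 * c2 g := by
  obtain ⟨k, m, n, h1, h2, h3⟩ := spec g
  have hz : (5 * c1 g, (0 : ℚ)) ∈ R := by
    refine ⟨k, 5 * m, 0, ?_, by simp, ?_⟩
    · push_cast; rw [← h1]; ring
    · rw [sub_zero]; exact Dvd.intro _ rfl
  have hw : ((0 : ℚ), 5 * c2 g) ∈ R := by
    refine ⟨k, 0, 5 * n, by simp, ?_, ?_⟩
    · push_cast; rw [← h2]; ring
    · rw [zero_sub]; exact (dvd_neg).2 (Dvd.intro _ rfl)
  obtain ⟨z, hz1, hz2⟩ : ∃ z : R, c1 z = 5 * c1 g ∧ c2 z = 0 := ⟨⟨_, hz⟩, rfl, rfl⟩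
  obtain ⟨w, hw1, hw2⟩ : ∃ w : R, c1 w = 0 ∧ c2 w = 5 * c2 g := ⟨⟨_, hw⟩, rfl, rfl⟩
  refine ⟨z, w, R_ext ?_ ?_, hz1, hz2, hw1, hw2⟩
  · rw [map_nsmul, map_add, hz1, hw1, nsmul_eq_mul, add_zero]; norm_num
  · rw [map_nsmul, map_add, hz2, hw2, nsmul_eq_mul, zero_add]; norm_num

theorem fst_mul (φ : R →+ R) (g : R) : c1 (φ g) = c1 (φ 1) * c1 g := by
  obtain ⟨k, m, n, h1, h2, h3⟩ := spec g
  obtain ⟨z, w, e1, e2, e3, e4, e5⟩ := split g
  obtain ⟨z', w', e1', e2', e3', e4', e5'⟩ := split 1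
  have h4 : (11 ^ k : ℕ) • z = m • z' := by
    refine R_ext ?_ ?_
    · rw [map_nsmul, map_zsmul, e2, e2', c1_one, nsmul_eq_mul, zsmul_eq_mul, ← h1]
      push_cast
      ring
    · rw [map_nsmul, map_zsmul, e3, e3', smul_zero, smul_zero]
  have h5 := congrArg c1 (congrArg φ h4)
  rw [map_nsmul, map_nsmul, map_zsmul, map_zsmul, nsmul_eq_mul, zsmul_eq_mul, ← h1] at h5
  have h6 := congrArg c1 (congrArg φ e1)
  rw [map_nsmul, map_nsmul, map_add, map_add, fst_zero φ w e4, nsmul_eq_mul, add_zero] at h6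
  have h7 := congrArg c1 (congrArg φ e1')
  rw [map_nsmul, map_nsmul, map_add, map_add, fst_zero φ w' e4', nsmul_eq_mul, add_zero] at h7
  push_cast at h5 h6 h7
  rw [← h6, ← h7] at h5
  have h9 : (11 : ℚ) ^ k * 5 ≠ 0 := mul_ne_zero (pow_ne_zero _ (by norm_num)) (by norm_num)
  apply mul_left_cancel₀ h9
  linear_combination h5

theorem snd_mul (φ : R →+ R) (g : R) : c2 (φ g) = c2 (φ 1) * c2 g := by
  obtain ⟨k, m, n, h1, h2, h3⟩ := spec g
  obtain ⟨z, w, e1, e2, e3, e4, e5⟩ := split g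
  obtain ⟨z', w', e1', e2', e3', e4', e5'⟩ := split 1
  have h4 : (31 ^ k : ℕ) • w = n • w' := by
    refine R_ext ?_ ?_
    · rw [map_nsmul, map_zsmul, e4, e4', smul_zero, smul_zero]
    · rw [map_nsmul, map_zsmul, e5, e5', c2_one, nsmul_eq_mul, zsmul_eq_mul, ← h2]
      push_cast
      ring
  have h5 := congrArg c2 (congrArg φ h4)
  rw [map_nsmul, map_nsmul, map_zsmul, map_zsmul, nsmul_eq_mul, zsmul_eq_mul, ← h2] at h5
  have h6 := congrArg c2 (congrArg φ e1)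
  rw [map_nsmul, map_nsmul, map_add, map_add, snd_zero φ z e3, nsmul_eq_mul, zero_add] at h6
  have h7 := congrArg c2 (congrArg φ e1')
  rw [map_nsmul, map_nsmul, map_add, map_add, snd_zero φ z' e3', nsmul_eq_mul, zero_add] at h7
  push_cast at h5 h6 h7
  rw [← h6, ← h7] at h5
  have h9 : (31 : ℚ) ^ k * 5 ≠ 0 := mul_ne_zero (pow_ne_zero _ (by norm_num)) (by norm_num)
  apply mul_left_cancel₀ h9
  linear_combination h5

/-- Every endomorphism of the additive group of `R` is the multiplication by an element of `R`. -/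
theorem endo (φ : R →+ R) (g : R) : φ g = φ 1 * g :=
  R_ext (fst_mul φ g) (snd_mul φ g)

/-- Multiplication by a unit is an automorphism. -/
def mulEquiv (u v : R) (h : u * v = 1) : R ≃+ R where
  toFun x := u * x
  invFun x := v * x
  left_inv x := by
    change v * (u * x) = x
    rw [← mul_assoc, mul_comm v u, h, one_mul]
  right_inv x := by
    change u * (v * x) = x
    rw [← mul_assoc, h, one_mul]
  map_add' x y := mul_add u x y

theorem mk_mem {a b : ℚ} {k : ℕ} {m n : ℤ} (ha : a * 11 ^ k = m) (hb : b * 31 ^ k = n)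
    (h : (5 : ℤ) ∣ m - n) : (a, b) ∈ R := ⟨k, m, n, ha, hb, h⟩

theorem one_sub_pow (k : ℕ) : (5 : ℤ) ∣ 1 - 31 ^ k := by
  have := sub_dvd_pow_sub_pow (1 : ℤ) 31 k
  rw [one_pow] at this
  exact dvd_trans (by norm_num) this

theorem one_sub_pow' (k : ℕ) : (5 : ℤ) ∣ 1 - 11 ^ k := by
  have := sub_dvd_pow_sub_pow (1 : ℤ) 11 k
  rw [one_pow] at this
  exact dvd_trans (by norm_num) this

/-- If `(a, ·)` is in `R` with `a` a unit, then `(a, ε)` is in `R` for a sign `ε`. -/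
theorem exists_sign_fst {u v : R} (h : u.1.1 * v.1.1 = 1) :
    ∃ ε : ℚ, ε * ε = 1 ∧ (u.1.1, ε) ∈ R ∧ (v.1.1, ε) ∈ R := by
  obtain ⟨k, m, n, h1, -, -⟩ := u.2
  obtain ⟨l, m', n', h1', -, -⟩ := v.2
  have hmm : m * m' = (11 : ℤ) ^ (k + l) := by
    have : (m : ℚ) * m' = (11 : ℚ) ^ (k + l) := by
      rw [← h1, ← h1', pow_add]
      linear_combination (11 : ℚ) ^ k * 11 ^ l * h
    exact_mod_cast this
  have h5 : (5 : ℤ) ∣ 1 - 11 ^ (k + l) := one_sub_pow' _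
  rw [← hmm] at h5
  rcases unit_mod (q := 11) (by norm_num) (by norm_num) (k := k) (l := l) (by exact_mod_cast h1)
    (by exact_mod_cast h1') h with h2 | h2
  · have h3 : (5 : ℤ) ∣ m' - 1 := by
      have : m' - 1 = -(1 - m * m') - m' * (m - 1) := by ring
      rw [this]
      exact dvd_sub ((dvd_neg).2 h5) (Dvd.dvd.mul_left h2 _)
    refine ⟨1, by norm_num, mk_mem (n := 31 ^ k) h1 (by push_cast; ring) ?_,
      mk_mem (n := 31 ^ l) h1' (by push_cast; ring) ?_⟩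
    · have : m - 31 ^ k = (m - 1) + (1 - 31 ^ k) := by ring
      rw [this]
      exact dvd_add h2 (one_sub_pow k)
    · have : m' - 31 ^ l = (m' - 1) + (1 - 31 ^ l) := by ring
      rw [this]
      exact dvd_add h3 (one_sub_pow l)
  · have h3 : (5 : ℤ) ∣ m' + 1 := by
      have : m' + 1 = (1 - m * m') + m' * (m + 1) := by ring
      rw [this]
      exact dvd_add h5 (Dvd.dvd.mul_left h2 _)
    refine ⟨-1, by norm_num, mk_mem (n := -31 ^ k) h1 (by push_cast; ring) ?_,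
      mk_mem (n := -31 ^ l) h1' (by push_cast; ring) ?_⟩
    · have : m - -31 ^ k = (m + 1) - (1 - 31 ^ k) := by ring
      rw [this]
      exact dvd_sub h2 (one_sub_pow k)
    · have : m' - -31 ^ l = (m' + 1) - (1 - 31 ^ l) := by ring
      rw [this]
      exact dvd_sub h3 (one_sub_pow l)

theorem exists_sign_snd {u v : R} (h : u.1.2 * v.1.2 = 1) :
    ∃ ε : ℚ, ε * ε = 1 ∧ (ε, u.1.2) ∈ R ∧ (ε, v.1.2) ∈ R := by
  obtain ⟨k, n, m, -, h1, -⟩ := u.2
  obtain ⟨l, n', m', -, h1', -⟩ := v.2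
  have hmm : m * m' = (31 : ℤ) ^ (k + l) := by
    have : (m : ℚ) * m' = (31 : ℚ) ^ (k + l) := by
      rw [← h1, ← h1', pow_add]
      linear_combination (31 : ℚ) ^ k * 31 ^ l * h
    exact_mod_cast this
  have h5 : (5 : ℤ) ∣ 1 - 31 ^ (k + l) := one_sub_pow _
  rw [← hmm] at h5
  rcases unit_mod (q := 31) (by norm_num) (by norm_num) (k := k) (l := l) (by exact_mod_cast h1)
    (by exact_mod_cast h1') h with h2 | h2
  · have h3 : (5 : ℤ) ∣ m' - 1 := by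
      have : m' - 1 = -(1 - m * m') - m' * (m - 1) := by ring
      rw [this]
      exact dvd_sub ((dvd_neg).2 h5) (Dvd.dvd.mul_left h2 _)
    refine ⟨1, by norm_num, mk_mem (m := 11 ^ k) (by push_cast; ring) h1 ?_,
      mk_mem (m := 11 ^ l) (by push_cast; ring) h1' ?_⟩
    · have : 11 ^ k - m = -(1 - 11 ^ k) - (m - 1) := by ring
      rw [this]
      exact dvd_sub ((dvd_neg).2 (one_sub_pow' k)) h2
    · have : 11 ^ l - m' = -(1 - 11 ^ l) - (m' - 1) := by ring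
      rw [this]
      exact dvd_sub ((dvd_neg).2 (one_sub_pow' l)) h3
  · have h3 : (5 : ℤ) ∣ m' + 1 := by
      have : m' + 1 = (1 - m * m') + m' * (m + 1) := by ring
      rw [this]
      exact dvd_add h5 (Dvd.dvd.mul_left h2 _)
    refine ⟨-1, by norm_num, mk_mem (m := -11 ^ k) (by push_cast; ring) h1 ?_,
      mk_mem (m := -11 ^ l) (by push_cast; ring) h1' ?_⟩
    · have : -11 ^ k - m = (1 - 11 ^ k) - (m + 1) := by ring
      rw [this]
      exact dvd_sub (one_sub_pow' k) h2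
    · have : -11 ^ l - m' = (1 - 11 ^ l) - (m' + 1) := by ring
      rw [this]
      exact dvd_sub (one_sub_pow' l) h3

theorem weaklyTransitive_R : WeaklyTransitive R := by
  rintro x y ⟨φ, hφ⟩ ⟨ψ, hψ⟩
  rw [endo] at hφ hψ
  obtain ⟨u, hu⟩ : ∃ u, u = φ 1 := ⟨_, rfl⟩
  obtain ⟨v, hv⟩ : ∃ v, v = ψ 1 := ⟨_, rfl⟩
  rw [← hu] at hφ
  rw [← hv] at hψ
  have h1 : u.1.1 * x.1.1 = y.1.1 := congrArg (fun z : R => z.1.1) hφ
  have h2 : u.1.2 * x.1.2 = y.1.2 := congrArg (fun z : R => z.1.2) hφ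
  have h3 : v.1.1 * y.1.1 = x.1.1 := congrArg (fun z : R => z.1.1) hψ
  have h4 : v.1.2 * y.1.2 = x.1.2 := congrArg (fun z : R => z.1.2) hψ
  have h5 : x.1.1 ≠ 0 → u.1.1 * v.1.1 = 1 := by
    intro hx
    apply mul_right_cancel₀ hx
    rw [one_mul]
    calc u.1.1 * v.1.1 * x.1.1 = v.1.1 * (u.1.1 * x.1.1) := by ring
      _ = x.1.1 := by rw [h1, h3]
  have h6 : x.1.2 ≠ 0 → u.1.2 * v.1.2 = 1 := by
    intro hx
    apply mul_right_cancel₀ hx
    rw [one_mul]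
    calc u.1.2 * v.1.2 * x.1.2 = v.1.2 * (u.1.2 * x.1.2) := by ring
      _ = x.1.2 := by rw [h2, h4]
  by_cases hx1 : x.1.1 = 0
  · by_cases hx2 : x.1.2 = 0
    · refine ⟨AddEquiv.refl _, ?_⟩
      apply Subtype.ext
      refine Prod.ext ?_ ?_
      · change x.1.1 = y.1.1
        rw [← h1, hx1, mul_zero]
      · change x.1.2 = y.1.2
        rw [← h2, hx2, mul_zero]
    · obtain ⟨ε, hε, e1, e2⟩ := exists_sign_snd (h6 hx2)
      refine ⟨mulEquiv ⟨_, e1⟩ ⟨_, e2⟩ (Subtype.ext (Prod.ext hε (h6 hx2))), ?_⟩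
      apply Subtype.ext
      refine Prod.ext ?_ ?_
      · change ε * x.1.1 = y.1.1
        rw [← h1, hx1, mul_zero, mul_zero]
      · exact h2
  · by_cases hx2 : x.1.2 = 0
    · obtain ⟨ε, hε, e1, e2⟩ := exists_sign_fst (h5 hx1)
      refine ⟨mulEquiv ⟨_, e1⟩ ⟨_, e2⟩ (Subtype.ext (Prod.ext (h5 hx1) hε)), ?_⟩
      apply Subtype.ext
      refine Prod.ext ?_ ?_
      · exact h1
      · change ε * x.1.2 = y.1.2
        rw [← h2, hx2, mul_zero, mul_zero]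
    · exact ⟨mulEquiv u v (Subtype.ext (Prod.ext (h5 hx1) (h6 hx2))), hφ⟩

/-- The matrix of an endomorphism of the square. -/
theorem matrix (η : R × R →+ R × R) : ∃ p q r s : R, ∀ a b : R,
    η (a, b) = (p * a + q * b, r * a + s * b) := by
  let i1 : R →+ R × R := AddMonoidHom.inl R R
  let i2 : R →+ R × R := AddMonoidHom.inr R R
  let p1 : R × R →+ R := AddMonoidHom.fst R R
  let p2 : R × R →+ R := AddMonoidHom.snd R R
  refine ⟨(p1.comp (η.comp i1)) 1, (p1.comp (η.comp i2)) 1, (p2.comp (η.comp i1)) 1,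
    (p2.comp (η.comp i2)) 1, fun a b => ?_⟩
  rw [← endo, ← endo, ← endo, ← endo]
  have h : ((a, b) : R × R) = i1 a + i2 b := by simp [i1, i2]
  rw [h, map_add]
  rfl

theorem not_weaklyTransitive_sq : ¬ WeaklyTransitive (R × R) := by
  intro hW
  let x1 : R := ⟨((5 : ℤ), (0 : ℤ)), int_mem 5 0 (by norm_num)⟩
  let x2 : R := ⟨((0 : ℤ), (5 : ℤ)), int_mem 0 5 (by norm_num)⟩
  let y1 : R := ⟨((5 : ℤ), (5 : ℤ)), int_mem 5 5 (by norm_num)⟩
  let y2 : R := ⟨((0 : ℤ), (10 : ℤ)), int_mem 0 10 (by norm_num)⟩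
  let w1 : R := ⟨((1 : ℤ), (-4 : ℤ)), int_mem 1 (-4) (by norm_num)⟩
  let w2 : R := ⟨((0 : ℤ), (-5 : ℤ)), int_mem 0 (-5) (by norm_num)⟩
  obtain ⟨η, hη⟩ := hW (x1, x2) (y1, y2)
    ⟨(AddMonoidHom.fst R R + AddMonoidHom.snd R R).prod (2 • AddMonoidHom.snd R R), by
      refine Prod.ext ?_ ?_
      · apply Subtype.ext
        refine Prod.ext ?_ ?_
        · change ((5 : ℤ) : ℚ) + ((0 : ℤ) : ℚ) = ((5 : ℤ) : ℚ)
          norm_num
        · change ((0 : ℤ) : ℚ) + ((5 : ℤ) : ℚ) = ((5 : ℤ) : ℚ)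
          norm_num
      · apply Subtype.ext
        change 2 • (((0 : ℤ) : ℚ), ((5 : ℤ) : ℚ)) = (((0 : ℤ) : ℚ), ((10 : ℤ) : ℚ))
        refine Prod.ext ?_ ?_
        · simp
        · simp; norm_num⟩
    ⟨((AddMonoidHom.mulLeft w1).comp (AddMonoidHom.fst R R) + 2 • AddMonoidHom.snd R R).prod
      ((AddMonoidHom.mulLeft w2).comp (AddMonoidHom.fst R R) + 3 • AddMonoidHom.snd R R), by
      refine Prod.ext ?_ ?_
      · apply Subtype.ext
        change (((1 : ℤ) : ℚ), ((-4 : ℤ) : ℚ)) * (((5 : ℤ) : ℚ), ((5 : ℤ) : ℚ)) +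
          2 • (((0 : ℤ) : ℚ), ((10 : ℤ) : ℚ)) = (((5 : ℤ) : ℚ), ((0 : ℤ) : ℚ))
        refine Prod.ext ?_ ?_
        · simp
        · simp; norm_num
      · apply Subtype.ext
        change (((0 : ℤ) : ℚ), ((-5 : ℤ) : ℚ)) * (((5 : ℤ) : ℚ), ((5 : ℤ) : ℚ)) +
          3 • (((0 : ℤ) : ℚ), ((10 : ℤ) : ℚ)) = (((0 : ℤ) : ℚ), ((5 : ℤ) : ℚ))
        refine Prod.ext ?_ ?_
        · simp
        · simp; norm_num⟩
  obtain ⟨p, q, r, s, h1⟩ := matrix η.toAddMonoidHom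
  obtain ⟨p', q', r', s', h2⟩ := matrix η.symm.toAddMonoidHom
  have h3 : η (x1, x2) = (p * x1 + q * x2, r * x1 + s * x2) := h1 x1 x2
  rw [hη] at h3
  obtain ⟨h4, h5⟩ := Prod.mk.inj h3
  -- first components of `p` and `r`
  have hp : p.1.1 = 1 := by
    have h6 : ((5 : ℤ) : ℚ) = p.1.1 * ((5 : ℤ) : ℚ) + q.1.1 * ((0 : ℤ) : ℚ) :=
      congrArg (fun z : R => z.1.1) h4
    push_cast at h6
    linarith
  have hr : r.1.1 = 0 := by
    have h6 : ((0 : ℤ) : ℚ) = r.1.1 * ((5 : ℤ) : ℚ) + s.1.1 * ((0 : ℤ) : ℚ) :=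
      congrArg (fun z : R => z.1.1) h5
    push_cast at h6
    linarith
  have hs : s.1.2 = 2 := by
    have h6 : ((10 : ℤ) : ℚ) = r.1.2 * ((0 : ℤ) : ℚ) + s.1.2 * ((5 : ℤ) : ℚ) :=
      congrArg (fun z : R => z.1.2) h5
    push_cast at h6
    linarith
  -- `s.1.1` is a unit
  have h7 : s.1.1 * s'.1.1 = 1 := by
    have h8 : η (η.symm (0, 1)) = (0, 1) := η.apply_symm_apply _
    have h9 : η.symm (0, 1) = (p' * 0 + q' * 1, r' * 0 + s' * 1) := h2 0 1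
    rw [h9] at h8
    have h10 : η (p' * 0 + q' * 1, r' * 0 + s' * 1) = _ := h1 _ _
    rw [h10] at h8
    have h11 := congrArg (fun z : R => z.1.1) (Prod.mk.inj h8).2
    have h12 : r.1.1 * (p'.1.1 * 0 + q'.1.1 * 1) * 0 + r.1.1 * (q'.1.1) + s.1.1 * s'.1.1 = 1 := by
      have h13 : r.1.1 * (p'.1.1 * 0 + q'.1.1 * 1) + s.1.1 * (r'.1.1 * 0 + s'.1.1 * 1) = 1 := h11
      linarith
    rw [hr] at h12
    linarith
  obtain ⟨k, m, n, e1, e2, e3⟩ := s.2
  obtain ⟨l, m', n', e1', -, -⟩ := s'.2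
  have h8 := unit_mod (q := 11) (by norm_num) (by norm_num) (k := k) (l := l)
    (by exact_mod_cast e1) (by exact_mod_cast e1') h7
  have h9 : n = 2 * 31 ^ k := by
    rw [hs] at e2
    exact_mod_cast e2.symm
  have h10 := one_sub_pow k
  rw [h9] at e3
  rcases h8 with h8 | h8
  · have : (5 : ℤ) ∣ 1 := by
      have h11 : (1 : ℤ) = (m - 1) - (m - 2 * 31 ^ k) + 2 * (1 - 31 ^ k) := by ring
      rw [h11]
      exact dvd_add (dvd_sub h8 e3) (Dvd.dvd.mul_left h10 _)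
    norm_num at this
  · have : (5 : ℤ) ∣ 3 := by
      have h11 : (3 : ℤ) = (m + 1) - (m - 2 * 31 ^ k) + 2 * (1 - 31 ^ k) := by ring
      rw [h11]
      exact dvd_add (dvd_sub h8 e3) (Dvd.dvd.mul_left h10 _)
    norm_num at this

/-- **Main result.** There is a torsion-free abelian group `G` (the group of all `(a, b)` with
`a ∈ ℤ[1/11]`, `b ∈ ℤ[1/31]` and `a ≡ b` modulo `5`) such that `G` is weakly transitive but
`G ⊕ G` is not. -/
theorem result : ∃ (G : Type) (_ : AddCommGroup G),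
    (∀ (n : ℤ) (x : G), n • x = 0 → n = 0 ∨ x = 0) ∧
    WeaklyTransitive G ∧ ¬ WeaklyTransitive (G × G) := by
  refine ⟨R, inferInstance, fun n x h => ?_, weaklyTransitive_R, not_weaklyTransitive_sq⟩
  by_cases hn : n = 0
  · exact Or.inl hn
  · right
    have hn' : (n : ℚ) ≠ 0 := by exact_mod_cast hn
    have h1 := congrArg c1 h
    have h2 := congrArg c2 h
    rw [map_zsmul, map_zero, zsmul_eq_mul] at h1 h2
    refine R_ext ?_ ?_
    · rw [map_zero]; exact (mul_eq_zero.1 h1).resolve_left hn'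
    · rw [map_zero]; exact (mul_eq_zero.1 h2).resolve_left hn'

end Pool.Agent.Results.MP_1abb56_al.SquareNotWeaklyTransitive
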